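import Pool.Agent.Helper40.TWM.Stmts
import Pool.Agent.Helper46.TWR.EIG
import Pool.Agent.Helper46.TWR.NEC

/-!
Row MST of the sheet TWM (MP_7a8f48_an): towers are totally ergodic.
-/

open MeasureTheory

namespace Pool.Agent.Helper46.TWM

open Pool.Agent.Helper98.TW
open Pool.Agent.Helper40.TWM (ST_MST)

theorem st_MST (hM : ST_MPS) (hN : ST_NEC) (hE : ST_EIG) (hR : ST_ERP) : ST_MST := by
  intro N lev f f' hti hr hne
  have h1 := hE N lev f f' hti hr (hN N lev f hti.t hne)
  exact ⟨fun m => hM N lev f f' hti m, fun m hm => (hR N lev f f' hti hr h1 m hm).1⟩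

end Pool.Agent.Helper46.TWM
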